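import Pool.Agent.Helper5.LCU.Stmts

set_option autoImplicit false

namespace Pool.Agent.Helper19.LCU

open Pool.Agent.Helper5.LCU

theorem maj_aux (a : ℕ → ℝ) (h : SLC a) : ∀ d x v, x + d ≤ v →
    a x * a (v + d) ≤ a (x + d) * a v := by
  intro d
  induction d with
  | zero => intro x v _; simp
  | succ d ih =>
    intro x v hv
    have h1 := h.2 x (v + d - 1) (by omega)
    rw [show v + d - 1 + 2 = v + (d + 1) by omega, show v + d - 1 + 1 = v + d by omega] at h1
    have h2 := ih (x + 1) v (by omega)
    rw [show x + 1 + d = x + (d + 1) by omega] at h2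
    exact h1.trans h2

theorem st_MAJ : ST_MAJ := by
  intro a h x y u v hxy hu hv
  rcases le_total u v with huv | huv
  · have := maj_aux a h (u - x) x v (by omega)
    rwa [show v + (u - x) = y by omega, show x + (u - x) = u by omega] at this
  · have := maj_aux a h (v - x) x u (by omega)
    rw [show u + (v - x) = y by omega, show x + (v - x) = v by omega] at this
    rwa [mul_comm (a u)]

end Pool.Agent.Helper19.LCU
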